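import Mathlib

/-!
MP_efd95c_co: the end vertex lemma (pure trigonometric form).
-/

set_option autoImplicit false

open Real

namespace H49E5

theorem ev_pos {db d al xi eta Tj : ℝ} (hdb0 : 0 ≤ db) (hd0 : 0 ≤ d) (hdal : d ≤ al)
    (hal : al ≤ π / 2) (hd : d < π / 2) (hdbal : db ≤ al) (hT : 0 ≤ Tj) (hxi0 : 0 ≤ xi)
    (hxe : xi < eta) (hxa : xi + al ≤ π) (h1 : db < π - eta) (h2 : π - eta < π / 2) :
    0 < (1 - cos (eta - xi)) + Tj * sin (eta - xi) + cos ((π - eta) - (al - d)) / cos d
      - cos (π - eta) / cos db := by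
  have hpi := Real.pi_pos
  set h := π - eta with hh
  set u := al - d with hu
  have hcd : 0 < cos d := Real.cos_pos_of_mem_Ioo ⟨by linarith, hd⟩
  have hcdb : 0 < cos db := Real.cos_pos_of_mem_Ioo ⟨by linarith, by linarith⟩
  have hlt : eta - xi < π := by linarith
  have hpos : 0 < eta - xi := by linarith
  have hs : 0 ≤ Tj * sin (eta - xi) :=
    mul_nonneg hT (Real.sin_nonneg_of_nonneg_of_le_pi hpos.le hlt.le)
  have hc1 : cos (eta - xi) < 1 := by
    have := Real.cos_lt_cos_of_nonneg_of_le_pi (le_refl 0) hlt.le hpos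
    simpa using this
  have hcd1 : cos d ≤ 1 := Real.cos_le_one d
  rcases le_or_gt al h with hc | hc
  · -- first case
    have hh2 : h ≤ π / 2 := h2.le
    have hch : 0 ≤ cos h := Real.cos_nonneg_of_mem_Icc ⟨by linarith, by linarith⟩
    have hchu : 0 ≤ cos (h - u) := Real.cos_nonneg_of_mem_Icc ⟨by linarith, by linarith⟩
    have hsu : 0 ≤ sin u := Real.sin_nonneg_of_nonneg_of_le_pi (by linarith) (by linarith)
    have hkey : cos h * sin al ≤ sin h * cos al := by
      have : 0 ≤ sin (h - al) := Real.sin_nonneg_of_nonneg_of_le_pi (by linarith) (by linarith)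
      rw [Real.sin_sub] at this
      linarith
    have h3 : cos h * cos d ≤ cos al * cos (h - u) := by
      have e1 : cos d = cos al * cos u + sin al * sin u := by
        rw [← Real.cos_sub]; congr 1; rw [hu]; ring
      have e2 : cos (h - u) = cos h * cos u + sin h * sin u := Real.cos_sub h u
      rw [e1, e2]
      nlinarith [mul_le_mul_of_nonneg_right hkey hsu]
    have h4 : cos al ≤ cos db :=
      Real.cos_le_cos_of_nonneg_of_le_pi hdb0 (by linarith) hdbal
    have h5 : cos h * cos d ≤ cos db * cos (h - u) :=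
      h3.trans (mul_le_mul_of_nonneg_right h4 hchu)
    have h6 : cos h / cos db ≤ cos (h - u) / cos d := by
      rw [div_le_div_iff₀ hcdb hcd]
      linarith
    linarith
  · -- second case
    have h3 : al - h ≤ eta - xi := by linarith
    have h4 : cos (eta - xi) ≤ cos (al - h) :=
      Real.cos_le_cos_of_nonneg_of_le_pi (by linarith) hlt.le h3
    have h5 : cos (al - h) ≤ cos (h - u) / cos d := by
      rw [le_div_iff₀ hcd]
      rcases le_or_gt h u with hc2 | hc2
      · have e1 : al - h = (u - h) + d := by rw [hu]; ring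
        have e2 : cos (h - u) = cos (u - h) := by rw [← Real.cos_neg]; congr 1; ring
        have hsum : cos (al - h) ≤ cos (u - h) := by
          rw [e1]
          exact Real.cos_le_cos_of_nonneg_of_le_pi (by linarith) (by linarith) (by linarith)
        have hcn : 0 ≤ cos (al - h) := Real.cos_nonneg_of_mem_Icc ⟨by linarith, by linarith⟩
        rw [e2]
        calc cos (al - h) * cos d ≤ cos (al - h) * 1 := mul_le_mul_of_nonneg_left hcd1 hcn
          _ = cos (al - h) := mul_one _
          _ ≤ _ := hsum
      · have h6 : cos d ≤ cos (h - u) :=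
          Real.cos_le_cos_of_nonneg_of_le_pi (by linarith) (by linarith) (by linarith)
        have h7 : cos (al - h) ≤ 1 := Real.cos_le_one _
        nlinarith
    have h6 : cos h / cos db < 1 := by
      rw [div_lt_one hcdb]
      exact Real.cos_lt_cos_of_nonneg_of_le_pi hdb0 (by linarith) h1
    linarith

/-- End vertex lemma: the two real components of
`1 / cos db + e^(i eta) (1 - i Ty) = e^(i xi) (1 - i Tj) + e^(-i al) (1 + i tan d)`
are incompatible. -/
theorem ev {db d al xi eta Tj Ty : ℝ} (hdb0 : 0 ≤ db) (hd0 : 0 ≤ d) (hdal : d ≤ al)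
    (hal : al ≤ π / 2) (hd : d < π / 2) (hdbal : db ≤ al) (hT : 0 ≤ Tj) (hxi0 : 0 ≤ xi)
    (hxe : xi < eta) (hxa : xi + al ≤ π) (h1 : db < π - eta) (h2 : π - eta < π / 2)
    (hre : 1 / cos db + (cos eta + Ty * sin eta)
      = (cos xi + Tj * sin xi) + (cos al + tan d * sin al))
    (him : sin eta - Ty * cos eta
      = (sin xi - Tj * cos xi) - (sin al - tan d * cos al)) : False := by
  have hpi := Real.pi_pos
  have hcd : 0 < cos d := Real.cos_pos_of_mem_Ioo ⟨by linarith, hd⟩
  have hcdb : 0 < cos db := Real.cos_pos_of_mem_Ioo ⟨by linarith, by linarith⟩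
  have hp := ev_pos hdb0 hd0 hdal hal hd hdbal hT hxi0 hxe hxa h1 h2
  have e1 : cos (π - eta) = - cos eta := Real.cos_pi_sub eta
  have e2 : cos ((π - eta) - (al - d)) / cos d
      = - (cos (al + eta) + tan d * sin (al + eta)) := by
    have : (π - eta) - (al - d) = π - ((al + eta) - d) := by ring
    rw [this, Real.cos_pi_sub, Real.cos_sub, Real.tan_eq_sin_div_cos]
    field_simp
  have e3 : cos (eta - xi) = cos eta * cos xi + sin eta * sin xi := Real.cos_sub _ _
  have e4 : sin (eta - xi) = sin eta * cos xi - cos eta * sin xi := Real.sin_sub _ _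
  have e5 : cos (al + eta) = cos al * cos eta - sin al * sin eta := Real.cos_add _ _
  have e6 : sin (al + eta) = sin al * cos eta + cos al * sin eta := Real.sin_add _ _
  have hsq := Real.sin_sq_add_cos_sq eta
  rw [e1, e2, e3, e4, e5, e6] at hp
  have key : 1 / cos db * cos eta + 1
      = (cos eta * cos xi + sin eta * sin xi) - Tj * (sin eta * cos xi - cos eta * sin xi)
        + ((cos al * cos eta - sin al * sin eta)
          + tan d * (sin al * cos eta + cos al * sin eta)) := by
    linear_combination (cos eta) * hre + (sin eta) * him - hsq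
  have e7 : -cos eta / cos db = - (1 / cos db * cos eta) := by
    field_simp
  rw [e7] at hp
  linarith

end H49E5
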