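import Pool.Agent.Helper71.E5.WStmts

/-!
MP_efd95c_co, wheels: row FRC.
-/

set_option autoImplicit false

open Complex

namespace E5

theorem frc_add (s t : ℝ) : AX.e (s + t) = AX.e s * AX.e t := by
  unfold AX.e
  rw [← Complex.exp_add]
  congr 1
  push_cast
  ring

theorem frc_half : AX.e (Real.pi / 2) = I := by
  unfold AX.e
  have : ((Real.pi / 2 : ℝ) : ℂ) * I = (Real.pi : ℂ) / 2 * I := by push_cast; ring
  rw [this, Complex.exp_pi_div_two_mul_I]

theorem frc_pi : AX.e Real.pi = -1 := by
  unfold AX.e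
  exact Complex.exp_pi_mul_I

theorem frc_conj (s : ℝ) : (starRingEnd ℂ) (AX.e s) = AX.e (-s) := by
  unfold AX.e
  rw [← Complex.exp_conj]
  congr 1
  simp

theorem FRC : ST_FRC := by
  intro φ U w τ s
  constructor
  · intro h
    rw [h]
    have h1 : φ + 3 * Real.pi / 2 - U = φ + (-U) + Real.pi + Real.pi / 2 := by ring
    rw [h1, frc_add, frc_add, frc_add, frc_half, frc_pi]
    unfold zf
    rw [map_mul, frc_conj, map_sub, map_mul, Complex.conj_ofReal, Complex.conj_ofReal,
      Complex.conj_I]
    linear_combination (-(w : ℂ) * AX.e φ * AX.e (-U)) * Complex.I_sq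
  · intro h
    rw [h]
    have h1 : φ + Real.pi / 2 + U = φ + U + Real.pi / 2 := by ring
    rw [h1, frc_add, frc_add, frc_half]
    unfold zf
    linear_combination (-(w : ℂ) * AX.e φ * AX.e U) * Complex.I_sq

end E5
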