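import Pool.Agent.Helper71.E5.WStmts

/-!
MP_efd95c_co, wheels: row TRI.
-/

set_option autoImplicit false

open Real

namespace E5

theorem ch_sq (r s θ : ℝ) : ch r s θ ^ 2 = r ^ 2 + s ^ 2 - 2 * r * s * Real.cos θ := by
  unfold ch
  rw [Real.sq_sqrt]
  nlinarith [sq_nonneg (r - s * Real.cos θ), sq_nonneg (s * Real.sin θ),
    Real.sin_sq_add_cos_sq θ]

theorem un_re (r s θ : ℝ) : ((r : ℂ) - (s : ℂ) * AX.e (-θ)).re = r - s * Real.cos θ := by
  simp [AX.e, Complex.exp_re]

theorem un_im (r s θ : ℝ) : ((r : ℂ) - (s : ℂ) * AX.e (-θ)).im = s * Real.sin θ := by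
  simp [AX.e, Complex.exp_im]

theorem un_norm (r s θ : ℝ) : ‖(r : ℂ) - (s : ℂ) * AX.e (-θ)‖ = ch r s θ := by
  rw [Complex.norm_def, Complex.normSq_apply, un_re, un_im]
  unfold ch
  congr 1
  nlinarith [Real.sin_sq_add_cos_sq θ]

theorem tri_ch_pos {r s θ : ℝ} (hs : 0 < s) (h0 : 0 < θ) (h1 : θ < π) :
    0 < ch r s θ := by
  have hsin : 0 < Real.sin θ := Real.sin_pos_of_pos_of_lt_pi h0 h1
  have h2 : 0 < ch r s θ ^ 2 := by
    rw [ch_sq]
    nlinarith [sq_nonneg (r - s * Real.cos θ), mul_pos hs hsin, Real.sin_sq_add_cos_sq θ]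
  have h3 : 0 ≤ ch r s θ := Real.sqrt_nonneg _
  rcases h3.eq_or_lt with h | h
  · rw [← h] at h2; norm_num at h2
  · exact h

theorem tri_un {r s θ : ℝ} (hs : 0 < s) (h0 : 0 < θ) (h1 : θ < π) :
    0 < un r s θ ∧ un r s θ < π ∧ r - s * Real.cos θ = ch r s θ * Real.cos (un r s θ) ∧
      s * Real.sin θ = ch r s θ * Real.sin (un r s θ) := by
  have hsin : 0 < Real.sin θ := Real.sin_pos_of_pos_of_lt_pi h0 h1
  have hc := tri_ch_pos (r := r) hs h0 h1
  have hnorm := un_norm r s θ
  have him : 0 < ((r : ℂ) - (s : ℂ) * AX.e (-θ)).im := by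
    rw [un_im]; exact mul_pos hs hsin
  have hne : (r : ℂ) - (s : ℂ) * AX.e (-θ) ≠ 0 := by
    intro h
    rw [h] at him
    simp at him
  have hcos : Real.cos (un r s θ) = (r - s * Real.cos θ) / ch r s θ := by
    unfold un
    rw [Complex.cos_arg hne, un_re, hnorm]
  have hsn : Real.sin (un r s θ) = (s * Real.sin θ) / ch r s θ := by
    unfold un
    rw [Complex.sin_arg, un_im, hnorm]
  refine ⟨?_, ?_, ?_, ?_⟩
  · unfold un
    rcases (Complex.arg_nonneg_iff.mpr him.le).eq_or_lt with h | h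
    · exfalso
      have h2 := Complex.arg_eq_zero_iff.mp h.symm
      linarith [h2.2]
    · exact h
  · unfold un
    rcases (Complex.arg_le_pi ((r : ℂ) - (s : ℂ) * AX.e (-θ))).eq_or_lt with h | h
    · exfalso
      have h2 := Complex.arg_eq_pi_iff.mp h
      linarith [h2.2]
    · exact h
  · rw [hcos]; field_simp
  · rw [hsn]; field_simp

theorem tri_sum {r s θ : ℝ} (hr : 0 < r) (hs : 0 < s) (h0 : 0 < θ) (h1 : θ < π) :
    un r s θ + un s r θ + θ = π := by
  have hc := tri_ch_pos (r := r) hs h0 h1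
  have hsym : ch s r θ = ch r s θ := by
    unfold ch; congr 1; ring
  obtain ⟨a1, a2, a3, a4⟩ := tri_un (r := r) hs h0 h1
  obtain ⟨b1, b2, b3, b4⟩ := tri_un (r := s) hr h0 h1
  rw [hsym] at b3 b4
  set u := un r s θ
  set v := un s r θ
  have hsq := ch_sq r s θ
  have hcs := Real.sin_sq_add_cos_sq θ
  have hc2 : ch r s θ ^ 2 ≠ 0 := by positivity
  have e1 : Real.cos (u + v) = - Real.cos θ := by
    have h : ch r s θ ^ 2 * Real.cos (u + v) = ch r s θ ^ 2 * (- Real.cos θ) := by
      rw [Real.cos_add]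
      have : ch r s θ ^ 2 * (Real.cos u * Real.cos v - Real.sin u * Real.sin v)
          = (ch r s θ * Real.cos u) * (ch r s θ * Real.cos v)
            - (ch r s θ * Real.sin u) * (ch r s θ * Real.sin v) := by ring
      rw [this, ← a3, ← a4, ← b3, ← b4, hsq]
      linear_combination (-(r * s)) * hcs
    exact mul_left_cancel₀ hc2 h
  have e2 : Real.sin (u + v) = Real.sin θ := by
    have h : ch r s θ ^ 2 * Real.sin (u + v) = ch r s θ ^ 2 * Real.sin θ := by
      rw [Real.sin_add]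
      have : ch r s θ ^ 2 * (Real.sin u * Real.cos v + Real.cos u * Real.sin v)
          = (ch r s θ * Real.sin u) * (ch r s θ * Real.cos v)
            + (ch r s θ * Real.cos u) * (ch r s θ * Real.sin v) := by ring
      rw [this, ← a3, ← a4, ← b3, ← b4, hsq]
      ring
    exact mul_left_cancel₀ hc2 h
  have e3 : Real.cos (u + v + θ - π) = 1 := by
    rw [Real.cos_sub_pi, Real.cos_add, e1, e2]
    linarith
  obtain ⟨n, hn⟩ := (Real.cos_eq_one_iff _).mp e3
  have hpi := Real.pi_pos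
  have hn1 : (n : ℝ) < 1 := by
    by_contra h
    push Not at h
    nlinarith
  have hn2 : (-1 : ℝ) < n := by
    by_contra h
    push Not at h
    nlinarith
  have hn3 : n = 0 := by
    have h4 : n < 1 := by exact_mod_cast hn1
    have h5 : -1 < n := by exact_mod_cast hn2
    omega
  rw [hn3] at hn
  simp at hn
  linarith

theorem TRI : ST_TRI := by
  intro r s θ hr hs h0 h1 hch
  have hpi := Real.pi_pos
  have hc := tri_ch_pos (r := r) hs h0 h1
  obtain ⟨a1, a2, a3, a4⟩ := tri_un (r := r) hs h0 h1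
  have hsum := tri_sum hr hs h0 h1
  have hsinhd : Real.sin (hd r s θ) = ch r s θ / 2 := by
    unfold hd
    rw [Real.sin_arcsin (by linarith) (by linarith)]
  have hd0 : 0 < hd r s θ := by
    unfold hd
    exact Real.arcsin_pos.mpr (by linarith)
  have hd1 : hd r s θ < π / 2 := by
    unfold hd
    exact Real.arcsin_lt_pi_div_two.mpr (by linarith)
  have hcd : 0 < Real.cos (hd r s θ) := Real.cos_pos_of_mem_Ioo ⟨by linarith, hd1⟩
  refine ⟨hc, by rw [hsinhd]; ring, hd0, hd1, a1, a2, a3, a4, hsum, ?_, ?_, ?_⟩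
  · unfold tq
    have : r * s * Real.sin θ = r * (ch r s θ * Real.sin (un r s θ)) := by
      rw [← a4]; ring
    rw [this]
    field_simp
  · unfold UU TT
    rw [Real.sin_add, Real.cos_add, Real.tan_eq_sin_div_cos]
    have hcs := Real.sin_sq_add_cos_sq (hd r s θ)
    field_simp
    linear_combination (- Real.sin (un r s θ)) * hcs
  · unfold UU TT
    rw [Real.sin_add, Real.cos_add, Real.tan_eq_sin_div_cos]
    have hcs := Real.sin_sq_add_cos_sq (hd r s θ)
    field_simp
    linear_combination (- Real.cos (un r s θ)) * hcs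

end E5
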