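import Pool.Agent.Helper71.E5.WStmts3
import Pool.Agent.Helper49.E5.TRI
import Pool.Agent.Helper49.E5.FRC
import Pool.Agent.Helper49.E5.EV

/-!
MP_efd95c_co, wheels: row KXB (`xb` slack, everything else tight).
-/

set_option autoImplicit false

open Real

namespace E5

theorem k_e_re (s : ℝ) : (AX.e s).re = Real.cos s := by
  simp [AX.e, Complex.exp_re]

theorem k_e_im (s : ℝ) : (AX.e s).im = Real.sin s := by
  simp [AX.e, Complex.exp_im]

theorem k_z_re (U T : ℝ) : (AX.e U * (1 - (T : ℂ) * Complex.I)).re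
    = Real.cos U + T * Real.sin U := by
  simp [Complex.mul_re, k_e_re, k_e_im]
  ring

theorem k_z_im (U T : ℝ) : (AX.e U * (1 - (T : ℂ) * Complex.I)).im
    = Real.sin U - T * Real.cos U := by
  simp [Complex.mul_im, k_e_re, k_e_im]
  ring

theorem k_chneg (r s θ : ℝ) : ch r s (-θ) = ch r s θ := by
  unfold ch
  rw [Real.cos_neg]

theorem k_omcneg (r s θ : ℝ) : omc r s (-θ) = omc r s θ := by
  unfold omc
  rw [k_chneg]

/-- the force of an arc in terms of its direction and its half arc -/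
theorem k_form {r s θ d u : ℝ} (hd0 : 0 < d) (hd1 : d < π / 2)
    (h : (r : ℂ) - (s : ℂ) * AX.e (-θ) = ((2 * Real.sin d : ℝ) : ℂ) * AX.e u) :
    (omc r s θ : ℂ) * ((r : ℂ) - (s : ℂ) * AX.e (-θ))
      = AX.e (u + d) * (1 - (Real.tan d : ℂ) * Complex.I) := by
  have hs : 0 < Real.sin d := Real.sin_pos_of_pos_of_lt_pi hd0 (by linarith [Real.pi_pos])
  have hc : 0 < Real.cos d := Real.cos_pos_of_mem_Ioo ⟨by linarith, hd1⟩
  have hch : ch r s θ = 2 * Real.sin d := by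
    rw [← un_norm, h, norm_mul]
    have h1 : ‖AX.e u‖ = 1 := by
      unfold AX.e
      exact Complex.norm_exp_ofReal_mul_I u
    rw [h1, mul_one, Complex.norm_real, Real.norm_of_nonneg (by linarith)]
  have hsq : Real.sqrt (4 - ch r s θ ^ 2) = 2 * Real.cos d := by
    rw [hch]
    have : 4 - (2 * Real.sin d) ^ 2 = (2 * Real.cos d) ^ 2 := by
      nlinarith [Real.sin_sq_add_cos_sq d]
    rw [this, Real.sqrt_sq (by linarith)]
  have hom : omc r s θ = 1 / (2 * Real.sin d * Real.cos d) := by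
    unfold omc
    rw [hsq, hch]
    field_simp
  have he : AX.e (u + d) * (1 - (Real.tan d : ℂ) * Complex.I)
      = ((1 / Real.cos d : ℝ) : ℂ) * AX.e u := by
    have h1 : (1 - (Real.tan d : ℂ) * Complex.I) = ((1 / Real.cos d : ℝ) : ℂ) * AX.e (-d) := by
      apply Complex.ext
      · rw [Complex.sub_re, Complex.one_re, Complex.mul_I_re, Complex.ofReal_im,
          Complex.re_ofReal_mul, k_e_re, Real.cos_neg]
        field_simp
        ring
      · rw [Complex.sub_im, Complex.one_im, Complex.mul_I_im, Complex.ofReal_re,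
          Complex.im_ofReal_mul, k_e_im, Real.sin_neg, Real.tan_eq_sin_div_cos]
        field_simp
        ring
    rw [h1, frc_add]
    have h2 : AX.e d * AX.e (-d) = 1 := by
      rw [← frc_add]; simp [AX.e]
    linear_combination (((1 / Real.cos d : ℝ) : ℂ) * AX.e u) * h2
  rw [he, h, hom]
  push_cast
  have hs' : (Complex.sin (d : ℂ)) ≠ 0 := by
    rw [← Complex.ofReal_sin]; exact_mod_cast hs.ne'
  have hc' : (Complex.cos (d : ℂ)) ≠ 0 := by
    rw [← Complex.ofReal_cos]; exact_mod_cast hc.ne'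
  field_simp

/-- polar form of a side of a triangle at the hub -/
theorem k_polar {r s θ : ℝ} (hr : 0 < r) (hs : 0 < s) (h0 : 0 < θ) (h1 : θ < π)
    (h2 : ch r s θ < 2) :
    (r : ℂ) - (s : ℂ) * AX.e (-θ) = ((2 * Real.sin (hd r s θ) : ℝ) : ℂ) * AX.e (un r s θ) := by
  have T := TRI r s θ hr hs h0 h1 h2
  rw [← T.2.1]
  apply Complex.ext
  · rw [un_re, T.2.2.2.2.2.2.1]
    simp [k_e_re, k_e_im]
  · rw [un_im, T.2.2.2.2.2.2.2.1]
    simp [k_e_re, k_e_im]

theorem k_z {r s θ : ℝ} (hr : 0 < r) (hs : 0 < s) (h0 : 0 < θ) (h1 : θ < π)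
    (h2 : ch r s θ < 2) :
    (omc r s θ : ℂ) * ((r : ℂ) - (s : ℂ) * AX.e (-θ))
      = AX.e (UU r s θ) * (1 - (TT r s θ : ℂ) * Complex.I) := by
  have T := TRI r s θ hr hs h0 h1 h2
  exact k_form T.2.2.1 T.2.2.2.1 (k_polar hr hs h0 h1 h2)

theorem k_zc {r s θ : ℝ} (hr : 0 < r) (hs : 0 < s) (h0 : 0 < θ) (h1 : θ < π)
    (h2 : ch r s θ < 2) :
    (omc r s θ : ℂ) * ((r : ℂ) - (s : ℂ) * AX.e θ)
      = AX.e (-UU r s θ) * (1 - ((-TT r s θ : ℝ) : ℂ) * Complex.I) := by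
  have h := congrArg (starRingEnd ℂ) (k_z hr hs h0 h1 h2)
  rw [map_mul, map_sub, map_mul, map_mul, map_sub, map_mul, map_one, Complex.conj_ofReal,
    Complex.conj_ofReal, Complex.conj_ofReal, Complex.conj_ofReal, frc_conj, frc_conj,
    Complex.conj_I, neg_neg] at h
  rw [h]
  push_cast
  ring

/-- law of cosines at a vertex, both points on the same side -/
theorem k_law {rb ra ry Φ b3 c1 c2 u1 u2 : ℝ}
    (h1 : rb - ra * Real.cos Φ = c1 * Real.cos u1) (h2 : ra * Real.sin Φ = c1 * Real.sin u1)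
    (h3 : rb - ry * Real.cos b3 = c2 * Real.cos u2) (h4 : ry * Real.sin b3 = c2 * Real.sin u2) :
    ra ^ 2 + ry ^ 2 - 2 * ra * ry * Real.cos (Φ - b3)
      = c1 ^ 2 + c2 ^ 2 - 2 * c1 * c2 * Real.cos (u2 - u1) := by
  have e1 : c1 ^ 2 = rb ^ 2 + ra ^ 2 - 2 * ra * rb * Real.cos Φ := by
    have : c1 ^ 2 = (c1 * Real.cos u1) ^ 2 + (c1 * Real.sin u1) ^ 2 := by
      nlinarith [Real.sin_sq_add_cos_sq u1]
    rw [this, ← h1, ← h2]
    nlinarith [Real.sin_sq_add_cos_sq Φ]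
  have e2 : c2 ^ 2 = rb ^ 2 + ry ^ 2 - 2 * ry * rb * Real.cos b3 := by
    have : c2 ^ 2 = (c2 * Real.cos u2) ^ 2 + (c2 * Real.sin u2) ^ 2 := by
      nlinarith [Real.sin_sq_add_cos_sq u2]
    rw [this, ← h3, ← h4]
    nlinarith [Real.sin_sq_add_cos_sq b3]
  have e3 : c1 * c2 * Real.cos (u2 - u1)
      = (c1 * Real.cos u1) * (c2 * Real.cos u2) + (c1 * Real.sin u1) * (c2 * Real.sin u2) := by
    rw [Real.cos_sub]; ring
  have e4 : Real.cos (Φ - b3) = Real.cos Φ * Real.cos b3 + Real.sin Φ * Real.sin b3 :=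
    Real.cos_sub _ _
  rw [← h1, ← h2, ← h3, ← h4] at e3
  rw [e1, e2, e4]
  linear_combination 2 * e3

/-- law of cosines at a vertex, points on different sides -/
theorem k_law' {rb ra ry Φ b3 c1 c2 u1 u2 : ℝ}
    (h1 : rb - ra * Real.cos Φ = c1 * Real.cos u1) (h2 : ra * Real.sin Φ = c1 * Real.sin u1)
    (h3 : rb - ry * Real.cos b3 = c2 * Real.cos u2) (h4 : ry * Real.sin b3 = c2 * Real.sin u2) :
    ra ^ 2 + ry ^ 2 - 2 * ra * ry * Real.cos (Φ + b3)
      = c1 ^ 2 + c2 ^ 2 - 2 * c1 * c2 * Real.cos (u1 + u2) := by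
  have := k_law (rb := rb) (ra := ra) (ry := ry) (Φ := Φ) (b3 := -b3) (c1 := c1) (c2 := c2)
    (u1 := u1) (u2 := -u2) h1 h2 (by rw [Real.cos_neg, Real.cos_neg]; exact h3)
    (by rw [Real.sin_neg, Real.sin_neg]; linarith)
  rw [sub_neg_eq_add] at this
  rw [this]
  congr 2
  rw [← Real.cos_neg]
  congr 1
  ring

theorem k_sinsub (x y : ℝ) : Real.sin (x - y) ^ 2
    = Real.sin x ^ 2 + Real.sin y ^ 2 - 2 * Real.sin x * Real.sin y * Real.cos (x - y) := by
  rw [Real.sin_sub, Real.cos_sub]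
  have h1 := Real.sin_sq_add_cos_sq x
  have h2 := Real.sin_sq_add_cos_sq y
  have e1 : Real.cos x ^ 2 = 1 - Real.sin x ^ 2 := by linarith
  have e2 : Real.cos y ^ 2 = 1 - Real.sin y ^ 2 := by linarith
  linear_combination (Real.sin x ^ 2) * e2 + (Real.sin y ^ 2) * e1

theorem k_sinadd (x y : ℝ) : Real.sin (x + y) ^ 2
    = Real.sin x ^ 2 + Real.sin y ^ 2 + 2 * Real.sin x * Real.sin y * Real.cos (x + y) := by
  have := k_sinsub x (-y)
  rw [sub_neg_eq_add, Real.sin_neg] at this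
  rw [this]
  ring

/-- comparison of two torques at a vertex -/
theorem k_q {u1 d1 u2 d2 : ℝ} (h1 : u1 + d1 < u2 + d2) (h2 : u2 + d2 ≤ π / 2)
    (h3 : u1 - d1 ≤ u2 - d2) (hd1 : 0 ≤ d1) (hd2 : 0 ≤ d2)
    (hd1' : d1 < π / 2) (hd2' : d2 < π / 2) (hu1 : 0 < u1) :
    Real.sin u1 / Real.cos d1 < Real.sin u2 / Real.cos d2 := by
  have hpi := Real.pi_pos
  have hc1 : 0 < Real.cos d1 := Real.cos_pos_of_mem_Ioo ⟨by linarith, hd1'⟩
  have hc2 : 0 < Real.cos d2 := Real.cos_pos_of_mem_Ioo ⟨by linarith, hd2'⟩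
  rw [div_lt_div_iff₀ hc1 hc2]
  have e1 : Real.sin u2 * Real.cos d1
      = (Real.sin (u2 + d1) + Real.sin (u2 - d1)) / 2 := by
    rw [Real.sin_add, Real.sin_sub]; ring
  have e2 : Real.sin u1 * Real.cos d2
      = (Real.sin (u1 + d2) + Real.sin (u1 - d2)) / 2 := by
    rw [Real.sin_add, Real.sin_sub]; ring
  have e3 : Real.sin (u2 + d1) - Real.sin (u1 + d2)
      = 2 * Real.sin (((u2 + d1) - (u1 + d2)) / 2) * Real.cos (((u2 + d1) + (u1 + d2)) / 2) :=
    Real.sin_sub_sin _ _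
  have e4 : Real.sin (u2 - d1) - Real.sin (u1 - d2)
      = 2 * Real.sin (((u2 - d1) - (u1 - d2)) / 2) * Real.cos (((u2 - d1) + (u1 - d2)) / 2) :=
    Real.sin_sub_sin _ _
  have p1 : 0 ≤ Real.sin (((u2 + d1) - (u1 + d2)) / 2) :=
    Real.sin_nonneg_of_nonneg_of_le_pi (by linarith) (by linarith)
  have p2 : 0 ≤ Real.cos (((u2 + d1) + (u1 + d2)) / 2) :=
    Real.cos_nonneg_of_mem_Icc ⟨by linarith, by linarith⟩
  have p3 : 0 < Real.sin (((u2 - d1) - (u1 - d2)) / 2) :=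
    Real.sin_pos_of_pos_of_lt_pi (by linarith) (by linarith)
  have p4 : 0 < Real.cos (((u2 - d1) + (u1 - d2)) / 2) :=
    Real.cos_pos_of_mem_Ioo ⟨by linarith, by linarith⟩
  have q1 := mul_nonneg p1 p2
  have q2 := mul_pos p3 p4
  rw [e1, e2]
  linarith

/-- a kink at the end `b` -/
theorem k_kb {db xi eta Ty : ℝ} (h0 : 0 < db) (h1 : db < π / 2) (h2 : 0 < xi) (h3 : xi < eta)
    (h4 : eta < π - db) (hT : 0 ≤ Ty) :
    0 < Real.cos xi / Real.cos db + (Real.cos (eta - xi) + Ty * Real.sin (eta - xi)) := by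
  have hpi := Real.pi_pos
  have hc : 0 < Real.cos db := Real.cos_pos_of_mem_Ioo ⟨by linarith, h1⟩
  have hs : 0 < Real.sin db := Real.sin_pos_of_pos_of_lt_pi h0 (by linarith)
  have p1 : Real.cos (π - db - xi) ≤ Real.cos (eta - xi) :=
    Real.cos_le_cos_of_nonneg_of_le_pi (by linarith) (by linarith) (by linarith)
  have p2 : 0 ≤ Ty * Real.sin (eta - xi) :=
    mul_nonneg hT (Real.sin_nonneg_of_nonneg_of_le_pi (by linarith) (by linarith))
  have p3 : Real.cos (π - db - xi) = - Real.cos (db + xi) := by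
    rw [← Real.cos_pi_sub]; congr 1; ring
  have p4 : 0 < Real.sin (db + xi) := Real.sin_pos_of_pos_of_lt_pi (by linarith) (by linarith)
  have p5 : Real.cos xi / Real.cos db - Real.cos (db + xi)
      = Real.sin db * Real.sin (db + xi) / Real.cos db := by
    rw [Real.cos_add, Real.sin_add]
    field_simp
    have := Real.sin_sq_add_cos_sq db
    linear_combination (-(Real.cos xi)) * this
  have p6 : 0 < Real.sin db * Real.sin (db + xi) / Real.cos db := by positivity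
  linarith

theorem k_sym (r s θ : ℝ) : ch r s θ = ch s r θ := by
  unfold ch; congr 1; ring

theorem k_hsym (r s θ : ℝ) : hd r s θ = hd s r θ := by
  unfold hd; rw [k_sym]

theorem k_norm_e (s : ℝ) : ‖AX.e s‖ = 1 := by
  unfold AX.e
  exact Complex.norm_exp_ofReal_mul_I s

/-- the chord which passes over the kink `a` -/
theorem k_kink0 {ra ry rb A Φ T : ℝ} (hra : 0 < ra) (hry : 0 < ry) (hrb : 0 < rb) (hA : 0 < A)
    (hAp : A < π) (hΦ : 0 < Φ) (hΦp : Φ < π) (c1 : ch ra rb Φ < 2) (c2 : ch ra ry A < 2)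
    (hk : UU ra ry A + UU ra rb Φ = π) (hT : AX.e T = AX.e (-(A + Φ))) :
    (rb : ℂ) - (ry : ℂ) * AX.e T
      = ((2 * Real.sin (hd ra rb Φ + hd ra ry A) : ℝ) : ℂ)
        * AX.e (un rb ra Φ - hd ra ry A) := by
  have T1 := TRI ra rb Φ hra hrb hΦ hΦp c1
  have c1' : ch rb ra Φ < 2 := by rw [k_sym]; exact c1
  have p1 := k_polar hrb hra hΦ hΦp c1'
  have p2 := k_polar hra hry hA hAp c2
  have hsum := T1.2.2.2.2.2.2.2.2.1
  have hu : un ra ry A - Φ = un rb ra Φ - (hd ra rb Φ + hd ra ry A) := by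
    unfold UU at hk
    linarith
  have e1 : (rb : ℂ) - (ry : ℂ) * AX.e T = ((rb : ℂ) - (ra : ℂ) * AX.e (-Φ))
      + AX.e (-Φ) * ((ra : ℂ) - (ry : ℂ) * AX.e (-A)) := by
    rw [hT, show -(A + Φ) = -Φ + -A by ring, frc_add]
    ring
  have e2 : AX.e (-Φ) * AX.e (un ra ry A)
      = AX.e (un rb ra Φ - hd ra ry A) * AX.e (-hd ra rb Φ) := by
    rw [← frc_add, ← frc_add]
    congr 1
    linarith
  have e3 : AX.e (un rb ra Φ) = AX.e (un rb ra Φ - hd ra ry A) * AX.e (hd ra ry A) := by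
    rw [← frc_add]; congr 1; ring
  have e4 : ((Real.sin (hd ra rb Φ) : ℝ) : ℂ) * AX.e (hd ra ry A)
      + ((Real.sin (hd ra ry A) : ℝ) : ℂ) * AX.e (-hd ra rb Φ)
      = ((Real.sin (hd ra rb Φ + hd ra ry A) : ℝ) : ℂ) := by
    apply Complex.ext
    · rw [Complex.add_re, Complex.re_ofReal_mul, Complex.re_ofReal_mul, k_e_re, k_e_re,
        Complex.ofReal_re, Real.cos_neg, Real.sin_add]
      ring
    · rw [Complex.add_im, Complex.im_ofReal_mul, Complex.im_ofReal_mul, k_e_im, k_e_im,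
        Complex.ofReal_im, Real.sin_neg]
      ring
  rw [e1, p1, p2, k_hsym rb ra Φ]
  push_cast at e4 ⊢
  linear_combination (2 * Complex.sin (hd ra ry A : ℂ)) * e2
    + (2 * Complex.sin (hd ra rb Φ : ℂ)) * e3 + (2 * AX.e (un rb ra Φ - hd ra ry A)) * e4

theorem k_kink {ra ry rb A Φ T : ℝ} (hra : 0 < ra) (hry : 0 < ry) (hrb : 0 < rb) (hA : 0 < A)
    (hAp : A < π) (hΦ : 0 < Φ) (hΦp : Φ < π) (c1 : ch ra rb Φ < 2) (c2 : ch ra ry A < 2)
    (hk : UU ra ry A + UU ra rb Φ = π) (hT : AX.e T = AX.e (-(A + Φ)))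
    (hd1 : hd ra rb Φ + hd ra ry A < π / 2) :
    (omc rb ry T : ℂ) * ((rb : ℂ) - (ry : ℂ) * AX.e T)
      = AX.e (UU rb ra Φ) * (1 - (Real.tan (hd ra rb Φ + hd ra ry A) : ℂ) * Complex.I) := by
  have T1 := TRI ra rb Φ hra hrb hΦ hΦp c1
  have T2 := TRI ra ry A hra hry hA hAp c2
  have hy := k_kink0 hra hry hrb hA hAp hΦ hΦp c1 c2 hk hT
  have hy' : (rb : ℂ) - (ry : ℂ) * AX.e (-(-T))
      = ((2 * Real.sin (hd ra rb Φ + hd ra ry A) : ℝ) : ℂ)
        * AX.e (un rb ra Φ - hd ra ry A) := by rw [neg_neg]; exact hy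
  have h := k_form (by linarith [T1.2.2.1, T2.2.2.1]) hd1 hy'
  rw [neg_neg, k_omcneg] at h
  rw [h]
  congr 2
  unfold UU
  rw [k_hsym rb ra Φ]
  ring

theorem k_avg {T t χ : ℝ} (h : T ≤ t) (hχ : 0 ≤ χ) : T ≤ (1 - χ) * T + χ * t := by
  have := mul_nonneg hχ (sub_nonneg.mpr h)
  linarith

/-- half of the boundary length of the hull of a full fan is less than `π` -/
theorem k_qsum {ra rx ry rb b1 b2 b3 : ℝ} (Q : WQD ra rx ry rb b1 b2 b3) :
    h0 ra + h0 rb + hd ra rx b1 + hd rx ry b2 + hd ry rb b3 < π := by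
  have ra0 := Q.ra0
  have rx0 := Q.rx0
  have ry0 := Q.ry0
  have rb0 := Q.rb0
  have b10 := Q.b10
  have b20 := Q.b20
  have b30 := Q.b30
  have bs := Q.bs
  have T1 := (TRI ra rx b1 ra0 rx0 b10 (by linarith) Q.cax2).2.2.2.2.2.2.2.2.1
  have T2 := (TRI rx ry b2 rx0 ry0 b20 (by linarith) Q.cxy2).2.2.2.2.2.2.2.2.1
  have T3 := (TRI ry rb b3 ry0 rb0 b30 (by linarith) Q.cyb2).2.2.2.2.2.2.2.2.1
  have q0 := Q.q0
  have qa := Q.qa
  have qx := Q.qx
  have qy := Q.qy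
  have qb := Q.qb
  unfold UU at qa qx qy qb
  have s1 := k_hsym rx ra b1
  have s2 := k_hsym ry rx b2
  have s3 := k_hsym rb ry b3
  linarith

/-- two consecutive arcs with a kink between them cannot cover a half circle -/
theorem k_dc {ry rx rb d1 d2 d u1 u2 b2 t3 : ℝ}
    (h1 : rx - ry * Real.cos b2 = 2 * Real.sin d1 * Real.cos u1)
    (h2 : ry * Real.sin b2 = 2 * Real.sin d1 * Real.sin u1)
    (h3 : rx - rb * Real.cos t3 = 2 * Real.sin d2 * Real.cos u2)
    (h4 : rb * Real.sin t3 = 2 * Real.sin d2 * Real.sin u2)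
    (h5 : ry ^ 2 + rb ^ 2 - 2 * ry * rb * Real.cos (b2 + t3) = (2 * Real.sin d) ^ 2)
    (hd1 : 0 < d1) (hd2 : 0 < d2) (hu1 : 0 < u1) (hu2 : 0 < u2)
    (hex : (u1 + d1) + (u2 + d2) ≤ π) (hs : d + d1 + d2 < π) : d < π / 2 := by
  by_contra hc
  push Not at hc
  have hpi := Real.pi_pos
  have law := k_law' h1 h2 h3 h4
  rw [h5] at law
  have hcos : - Real.cos (d1 + d2) ≤ Real.cos (u1 + u2) := by
    rw [← Real.cos_pi_sub]
    exact Real.cos_le_cos_of_nonneg_of_le_pi (by linarith) (by linarith) (by linarith)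
  have hs1 : 0 < Real.sin d1 := Real.sin_pos_of_pos_of_lt_pi hd1 (by linarith)
  have hs2 : 0 < Real.sin d2 := Real.sin_pos_of_pos_of_lt_pi hd2 (by linarith)
  have e1 := k_sinadd d1 d2
  have e2 : Real.sin (d1 + d2) < Real.sin d := by
    rw [← Real.sin_pi_sub d]
    exact Real.sin_lt_sin_of_lt_of_le_pi_div_two (by linarith) (by linarith) (by linarith)
  have e3 : 0 < Real.sin (d1 + d2) := Real.sin_pos_of_pos_of_lt_pi (by linarith) (by linarith)
  have e4 : Real.sin (d1 + d2) ^ 2 < Real.sin d ^ 2 := by nlinarith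
  have e5 := mul_le_mul_of_nonneg_left hcos (mul_pos hs1 hs2).le
  nlinarith

theorem k_hdc {ra rx ry rb b1 b2 b3 t3 : ℝ}
    (D : WD ra rx ry rb ra rx ry rb b1 b2 b3 (b1 + b2) b2 t3 (b1 + b2 + b3))
    (hk : UU ra ry (b1 + b2) + UU ra rb (b1 + b2 + b3) = π)
    (heT : AX.e (b2 + t3) = AX.e (-((b1 + b2) + (b1 + b2 + b3)))) :
    hd ra rb (b1 + b2 + b3) + hd ra ry (b1 + b2) < π / 2 := by
  have Q := D.q
  have P := D.p
  have ra0 := Q.ra0
  have rx0 := Q.rx0
  have ry0 := Q.ry0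
  have rb0 := Q.rb0
  have b10 := Q.b10
  have b20 := Q.b20
  have b30 := Q.b30
  have bs := Q.bs
  have t30 := P.t30
  have t3p := P.t3p
  have Txb := TRI rx rb t3 rx0 rb0 t30 t3p P.pxb
  have Txy := TRI rx ry b2 rx0 ry0 b20 (by linarith) Q.cxy2
  have hy := k_kink0 ra0 ry0 rb0 (by linarith) (by linarith) (by linarith) bs Q.cab2 Q.cay2
    hk heT
  have h5 : ry ^ 2 + rb ^ 2 - 2 * ry * rb * Real.cos (b2 + t3)
      = (2 * Real.sin (hd ra rb (b1 + b2 + b3) + hd ra ry (b1 + b2))) ^ 2 := by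
    have h1 := ch_sq rb ry (-(b2 + t3))
    rw [← un_norm, neg_neg, hy, norm_mul, k_norm_e, mul_one, Complex.norm_real, Real.norm_eq_abs,
      sq_abs, Real.cos_neg] at h1
    rw [h1]; ring
  have hsum := k_qsum Q
  have hpos := D.pos
  have hex := P.ex
  unfold UU at hex
  have s1 := k_hsym ry rx b2
  exact k_dc (by rw [Txy.2.2.2.2.2.2.1, Txy.2.1]) (by rw [Txy.2.2.2.2.2.2.2.1, Txy.2.1])
    (by rw [Txb.2.2.2.2.2.2.1, Txb.2.1]) (by rw [Txb.2.2.2.2.2.2.2.1, Txb.2.1]) h5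
    Txy.2.2.1 Txb.2.2.1 Txy.2.2.2.2.1 Txb.2.2.2.2.1 hex (by linarith)

/-- order of the lower arcs at a vertex -/
theorem k_ro {rb ra ry Φ b3 d1 d2 d3 u1 u2 : ℝ}
    (h1 : rb - ra * Real.cos Φ = 2 * Real.sin d1 * Real.cos u1)
    (h2 : ra * Real.sin Φ = 2 * Real.sin d1 * Real.sin u1)
    (h3 : rb - ry * Real.cos b3 = 2 * Real.sin d2 * Real.cos u2)
    (h4 : ry * Real.sin b3 = 2 * Real.sin d2 * Real.sin u2)
    (h5 : ra ^ 2 + ry ^ 2 - 2 * ra * ry * Real.cos (Φ - b3) = (2 * Real.sin d3) ^ 2)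
    (hu : u1 < u2) (hd1 : 0 < d1) (hd2 : d2 < π / 2)
    (hd3 : d3 < π / 2) (hrc : d2 < d3 + d1) : u1 - d1 ≤ u2 - d2 := by
  have hpi := Real.pi_pos
  rcases le_or_gt d2 d1 with hc | hc
  · linarith
  have law := k_law h1 h2 h3 h4
  rw [h5] at law
  have e1 := k_sinsub d2 d1
  have hs1 : 0 < Real.sin d1 := Real.sin_pos_of_pos_of_lt_pi hd1 (by linarith)
  have hs2 : 0 < Real.sin d2 := Real.sin_pos_of_pos_of_lt_pi (by linarith) (by linarith)
  have e2 : Real.sin (d2 - d1) < Real.sin d3 :=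
    Real.sin_lt_sin_of_lt_of_le_pi_div_two (by linarith) (by linarith) (by linarith)
  have e3 : 0 < Real.sin (d2 - d1) := Real.sin_pos_of_pos_of_lt_pi (by linarith) (by linarith)
  have e4 : Real.sin (d2 - d1) ^ 2 < Real.sin d3 ^ 2 := by nlinarith
  by_contra hcon
  push Not at hcon
  have e5 : Real.cos (d2 - d1) ≤ Real.cos (u2 - u1) :=
    Real.cos_le_cos_of_nonneg_of_le_pi (by linarith) (by linarith) (by linarith)
  have e6 := mul_le_mul_of_nonneg_left e5 (mul_pos hs1 hs2).le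
  nlinarith

/-- the slack side is not obtuse -/
theorem k_al {al xi Tx Tj : ℝ} (hxi : 0 < xi) (hal : al < π) (hs : xi + al ≤ π) (hTx : 0 < Tx)
    (hTj : 0 ≤ Tj) (h : Real.sin al - Tx * Real.cos al ≤ Real.sin xi - Tj * Real.cos xi) :
    al ≤ π / 2 := by
  by_contra hc
  push Not at hc
  have hpi := Real.pi_pos
  have c1 : Real.cos al < 0 := Real.cos_neg_of_pi_div_two_lt_of_lt hc (by linarith)
  have c2 : 0 < Real.cos xi := Real.cos_pos_of_mem_Ioo ⟨by linarith, by linarith⟩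
  have c3 : Real.sin xi ≤ Real.sin al := by
    rw [← Real.sin_pi_sub al]
    exact Real.sin_le_sin_of_le_of_le_pi_div_two (by linarith) (by linarith) (by linarith)
  have c4 := mul_pos hTx (neg_pos.mpr c1)
  have c5 := mul_nonneg hTj c2.le
  linarith

theorem KXB : ST_KXB := by
  intro ra rx ry rb b1 b2 b3 t3 w0a w0x w0y w0b way wyx wab χa χx χy χb D W ht
  have Q := D.q
  have P := D.p
  have hpi := Real.pi_pos
  have ra0 := Q.ra0
  have rx0 := Q.rx0
  have ry0 := Q.ry0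
  have rb0 := Q.rb0
  have b10 := Q.b10
  have b20 := Q.b20
  have b30 := Q.b30
  have bs := Q.bs
  have t30 := P.t30
  have t3p := P.t3p
  have ts := P.ts
  -- triangles
  have cba : ch rb ra (b1 + b2 + b3) < 2 := by rw [k_sym]; exact Q.cab2
  have cby : ch rb ry b3 < 2 := by rw [k_sym]; exact Q.cyb2
  have cbx : ch rb rx t3 < 2 := by rw [k_sym]; exact P.pxb
  have cxa : ch rx ra b1 < 2 := by rw [k_sym]; exact Q.cax2
  have Tba := TRI rb ra (b1 + b2 + b3) rb0 ra0 (by linarith) bs cba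
  have Tby := TRI rb ry b3 rb0 ry0 b30 (by linarith) cby
  have Tbx := TRI rb rx t3 rb0 rx0 t30 t3p cbx
  have Txb := TRI rx rb t3 rx0 rb0 t30 t3p P.pxb
  have Txy := TRI rx ry b2 rx0 ry0 b20 (by linarith) Q.cxy2
  have Txa := TRI rx ra b1 rx0 ra0 b10 (by linarith) cxa
  have Tay := TRI ra ry (b1 + b2) ra0 ry0 (by linarith) (by linarith) Q.cay2
  have zba := k_z rb0 ra0 (by linarith) bs cba
  have zby := k_z rb0 ry0 b30 (by linarith) cby
  have zbx := k_zc rb0 rx0 t30 t3p cbx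
  have zxb := k_z rx0 rb0 t30 t3p P.pxb
  have zxy := k_zc rx0 ry0 b20 (by linarith) Q.cxy2
  have zxa := k_z rx0 ra0 b10 (by linarith) cxa
  have tanpos : ∀ r s θ : ℝ, 0 < hd r s θ → hd r s θ < π / 2 → 0 < TT r s θ := by
    intro r s θ h1 h2
    unfold TT
    exact Real.tan_pos_of_pos_of_lt_pi_div_two h1 h2
  have dbp : 0 < h0 rb := by unfold h0; exact Real.arcsin_pos.mpr (by linarith)
  have dbl : h0 rb < π / 2 := by
    unfold h0; exact Real.arcsin_lt_pi_div_two.mpr (by linarith [Q.rb2])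
  have xe : UU rb ra (b1 + b2 + b3) < UU rb ry b3 := Q.z2.trans Q.z3
  have ep : UU rb ry b3 < π - h0 rb := by linarith [Q.qb]
  have xi0 : 0 < UU rb ra (b1 + b2 + b3) := by unfold UU; linarith [Tba.2.2.1, Tba.2.2.2.2.1]
  have Tyn := (tanpos _ _ _ Tby.2.2.1 Tby.2.2.2.1).le
  have Tan := (tanpos _ _ _ Tba.2.2.1 Tba.2.2.2.1).le
  have Txn := (tanpos _ _ _ Tbx.2.2.1 Tbx.2.2.2.1).le
  -- the equation at b
  have hQ := congrArg (starRingEnd ℂ) W.QB
  simp only [map_add, map_mul, map_sub, Complex.conj_ofReal, frc_conj] at hQ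
  have hP := W.PB
  have E : ((1 / Real.cos (h0 rb) : ℝ) : ℂ)
      + AX.e (UU rb ry b3) * (1 - (TT rb ry b3 : ℂ) * Complex.I)
      = (((1 - χb) * (1 - χx) : ℝ) : ℂ)
          * (AX.e (-UU rb rx t3) * (1 - ((-TT rb rx t3 : ℝ) : ℂ) * Complex.I))
        + (((1 - χb) * (1 - χa) : ℝ) : ℂ)
          * (AX.e (UU rb ra (b1 + b2 + b3))
            * (1 - (TT rb ra (b1 + b2 + b3) : ℂ) * Complex.I))
        + ((χx + χa : ℝ) : ℂ) * ((omc rb ry (b2 + t3) : ℂ)
          * ((rb : ℂ) - (ry : ℂ) * AX.e (b2 + t3))) := by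
    push_cast at hQ hP zba zby zbx ⊢
    linear_combination hP - hQ - zby + (1 - (χb : ℂ)) * (1 - (χx : ℂ)) * zbx
      + (1 - (χb : ℂ)) * (1 - (χa : ℂ)) * zba
  -- b is no kink
  have hkb : UU rb rx t3 + UU rb ra (b1 + b2 + b3) < π := by
    rcases P.eb.lt_or_eq with h | h
    · exact h
    exfalso
    have hx : χx = 0 := by
      by_contra hc
      have h1 := W.χxs hc
      rcases P.nxb with h2 | h2 <;> linarith
    have ha : χa = 0 := by
      by_contra hc
      have h1 := W.χas hc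
      rcases P.nab with h2 | h2 <;> linarith
    rw [hx, ha] at E
    have e1 := congrArg Complex.re E
    have e2 := congrArg Complex.im E
    simp only [Complex.add_re, Complex.add_im, Complex.ofReal_re, Complex.ofReal_im,
      Complex.re_ofReal_mul, Complex.im_ofReal_mul, k_z_re, k_z_im] at e1 e2
    have al : UU rb rx t3 = π - UU rb ra (b1 + b2 + b3) := by linarith
    rw [al, Real.cos_neg, Real.sin_neg, Real.cos_pi_sub, Real.sin_pi_sub] at e1 e2
    have key := k_kb dbp dbl xi0 xe ep Tyn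
    rw [Real.cos_sub, Real.sin_sub] at key
    have : Real.cos (UU rb ra (b1 + b2 + b3)) / Real.cos (h0 rb)
        = (1 / Real.cos (h0 rb)) * Real.cos (UU rb ra (b1 + b2 + b3)) := by ring
    rw [this] at key
    have hz : 1 / Real.cos (h0 rb) * Real.cos (UU rb ra (b1 + b2 + b3)) +
        (Real.cos (UU rb ry b3) * Real.cos (UU rb ra (b1 + b2 + b3)) +
            Real.sin (UU rb ry b3) * Real.sin (UU rb ra (b1 + b2 + b3)) +
          TT rb ry b3 * (Real.sin (UU rb ry b3) * Real.cos (UU rb ra (b1 + b2 + b3)) -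
              Real.cos (UU rb ry b3) * Real.sin (UU rb ra (b1 + b2 + b3)))) = 0 := by
      linear_combination (Real.cos (UU rb ra (b1 + b2 + b3))) * e1
        + (Real.sin (UU rb ra (b1 + b2 + b3))) * e2
    linarith
  have hχb : χb = 0 := by
    by_contra hc
    have h1 := W.χbs hc
    linarith
  -- x is no kink
  have hkx : UU rx ry b2 + UU rx rb t3 < π := by
    rcases P.ex.lt_or_eq with h | h
    · exact h
    exfalso
    have hy : χy = 0 := by
      by_contra hc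
      have h1 := W.χys hc
      rcases P.nyx with h2 | h2 <;> linarith
    have hQX := W.QX
    have hPX := W.PX
    have EX : AX.e (UU rx ra b1) * (1 - (TT rx ra b1 : ℂ) * Complex.I)
        + AX.e (-UU rx ry b2) * (1 - ((-TT rx ry b2 : ℝ) : ℂ) * Complex.I)
        = ((1 - χx : ℝ) : ℂ) *
          (AX.e (-UU rx ry b2) * (1 - ((-TT rx ry b2 : ℝ) : ℂ) * Complex.I))
          + ((1 - χx : ℝ) : ℂ) * (AX.e (UU rx rb t3) * (1 - (TT rx rb t3 : ℂ) * Complex.I)) := by
      rw [hy, hχb] at hPX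
      push_cast at hQX hPX zxb zxy zxa ⊢
      linear_combination hPX - hQX - zxa - zxy + (1 - (χx : ℂ)) * zxy + (1 - (χx : ℂ)) * zxb
    have e1 := congrArg Complex.re EX
    have e2 := congrArg Complex.im EX
    simp only [Complex.add_re, Complex.add_im, Complex.re_ofReal_mul, Complex.im_ofReal_mul,
      k_z_re, k_z_im] at e1 e2
    have al : UU rx ry b2 = π - UU rx rb t3 := by linarith
    rw [al, Real.cos_neg, Real.sin_neg, Real.cos_pi_sub, Real.sin_pi_sub] at e1 e2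
    have hlt : UU rx ra b1 < UU rx rb t3 := by linarith [Q.qx]
    have hW0 : 0 < UU rx ra b1 := by unfold UU; linarith [Txa.2.2.1, Txa.2.2.2.2.1]
    have hVp : UU rx rb t3 < π := by
      have : 0 < UU rx ry b2 := by unfold UU; linarith [Txy.2.2.1, Txy.2.2.2.2.1]
      linarith
    have hTxa := (tanpos _ _ _ Txa.2.2.1 Txa.2.2.2.1).le
    have c1 : Real.cos (UU rx rb t3 - UU rx ra b1) < 1 := by
      have := Real.cos_lt_cos_of_nonneg_of_le_pi (le_refl 0)
        (by linarith : UU rx rb t3 - UU rx ra b1 ≤ π) (by linarith)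
      simpa using this
    have c2 : 0 ≤ TT rx ra b1 * Real.sin (UU rx rb t3 - UU rx ra b1) :=
      mul_nonneg hTxa (Real.sin_nonneg_of_nonneg_of_le_pi (by linarith) (by linarith))
    have hsq := Real.sin_sq_add_cos_sq (UU rx rb t3)
    have hz : Real.cos (UU rx rb t3 - UU rx ra b1)
        - TT rx ra b1 * Real.sin (UU rx rb t3 - UU rx ra b1) = 1 := by
      rw [Real.cos_sub, Real.sin_sub]
      linear_combination (Real.cos (UU rx rb t3)) * e1 + (Real.sin (UU rx rb t3)) * e2 + hsq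
    linarith
  have hχx : χx = 0 := by
    by_contra hc
    have h1 := W.χxs hc
    linarith
  -- effective force towards a
  have hTj : ∃ Tj : ℝ, TT rb ra (b1 + b2 + b3) ≤ Tj ∧
      ((1 - χa : ℝ) : ℂ) * (AX.e (UU rb ra (b1 + b2 + b3))
            * (1 - (TT rb ra (b1 + b2 + b3) : ℂ) * Complex.I))
        + ((χa : ℝ) : ℂ) * ((omc rb ry (b2 + t3) : ℂ)
          * ((rb : ℂ) - (ry : ℂ) * AX.e (b2 + t3)))
        = AX.e (UU rb ra (b1 + b2 + b3)) * (1 - (Tj : ℂ) * Complex.I) := by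
    by_cases hc : χa = 0
    · refine ⟨TT rb ra (b1 + b2 + b3), le_refl _, ?_⟩
      rw [hc]
      push_cast
      ring
    · have hk := W.χas hc
      -- the arc over a is short
      have heT : AX.e (b2 + t3) = AX.e (-((b1 + b2) + (b1 + b2 + b3))) := by
        have h1 : b2 + t3 = -((b1 + b2) + (b1 + b2 + b3)) + 2 * π := by linarith
        rw [h1, frc_add]
        have : AX.e (2 * π) = 1 := by
          unfold AX.e
          have : ((2 * π : ℝ) : ℂ) * Complex.I = 2 * (π : ℂ) * Complex.I := by push_cast; ring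
          rw [this, Complex.exp_two_pi_mul_I]
        rw [this, mul_one]
      have hdc := k_hdc D hk heT
      have hkk := k_kink ra0 ry0 rb0 (by linarith) (by linarith) (by linarith) bs Q.cab2 Q.cay2
        hk heT hdc
      refine ⟨(1 - χa) * TT rb ra (b1 + b2 + b3)
        + χa * Real.tan (hd ra rb (b1 + b2 + b3) + hd ra ry (b1 + b2)), ?_, ?_⟩
      · have h1 : TT rb ra (b1 + b2 + b3)
            ≤ Real.tan (hd ra rb (b1 + b2 + b3) + hd ra ry (b1 + b2)) := by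
          unfold TT
          rw [k_hsym rb ra]
          apply le_of_lt
          exact Real.tan_lt_tan_of_lt_of_lt_pi_div_two
            (by have := Tba.2.2.1; rw [k_hsym] at this; linarith) hdc (by linarith [Tay.2.2.1])
        exact k_avg h1 W.χa0.1
      · rw [hkk]
        push_cast
        ring
  obtain ⟨Tj, hTj1, hTj2⟩ := hTj
  have E' : ((1 / Real.cos (h0 rb) : ℝ) : ℂ)
      + AX.e (UU rb ry b3) * (1 - (TT rb ry b3 : ℂ) * Complex.I)
      = AX.e (-UU rb rx t3) * (1 - ((-TT rb rx t3 : ℝ) : ℂ) * Complex.I)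
        + AX.e (UU rb ra (b1 + b2 + b3)) * (1 - (Tj : ℂ) * Complex.I) := by
    rw [hχb, hχx] at E
    push_cast at E hTj2 ⊢
    linear_combination E + hTj2
  have e1 := congrArg Complex.re E'
  have e2 := congrArg Complex.im E'
  simp only [Complex.add_re, Complex.add_im, Complex.ofReal_re, Complex.ofReal_im,
    k_z_re, k_z_im, Real.cos_neg, Real.sin_neg] at e1 e2
  -- torque of the stresses of p at b
  have F : (w0b : ℂ) * rb + (wab : ℂ) * ((rb : ℂ) - (ra : ℂ) * AX.e (-(b1 + b2 + b3)))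
      = AX.e (-UU rb rx t3) * (1 - ((-TT rb rx t3 : ℝ) : ℂ) * Complex.I)
        + AX.e (UU rb ra (b1 + b2 + b3)) * (1 - (Tj : ℂ) * Complex.I) := by
    rw [hχb, hχx] at hP
    push_cast at hP hTj2 zbx zba ⊢
    linear_combination hP + hTj2 + zbx + (1 - (χa : ℂ)) * zba
  have f2 := congrArg Complex.im F
  simp only [Complex.add_im, Complex.im_ofReal_mul, k_z_im, un_im, Complex.ofReal_im,
    Real.cos_neg, Real.sin_neg, mul_zero, zero_add] at f2
  have hw : 0 ≤ wab * (ra * Real.sin (b1 + b2 + b3)) :=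
    mul_nonneg W.nab (mul_nonneg ra0.le
      (Real.sin_nonneg_of_nonneg_of_le_pi (by linarith) bs.le))
  have alp : 0 < UU rb rx t3 := by unfold UU; linarith [Tbx.2.2.1, Tbx.2.2.2.2.1]
  have hTj0 : 0 ≤ Tj := Tan.trans hTj1
  have hal := k_al (al := UU rb rx t3) (xi := UU rb ra (b1 + b2 + b3)) (Tx := TT rb rx t3)
    (Tj := Tj) xi0 (by linarith) (by linarith) (tanpos _ _ _ Tbx.2.2.1 Tbx.2.2.2.1) hTj0
    (by linarith)
  have heta : π - UU rb ry b3 < π / 2 := by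
    by_contra hc
    push Not at hc
    have r1 : un rb ra (b1 + b2 + b3) - hd rb ra (b1 + b2 + b3)
        ≤ un rb ry b3 - hd rb ry b3 := by
      have hrc := Q.qayb.2.1
      rw [k_hsym ry rb, k_hsym ra rb] at hrc
      refine k_ro (rb := rb) (ra := ra) (ry := ry) (Φ := b1 + b2 + b3) (b3 := b3)
        (d3 := hd ra ry (b1 + b2)) ?_ ?_ ?_ ?_ ?_ (Q.uz1.trans Q.uz2) Tba.2.2.1 Tby.2.2.2.1 Tay.2.2.2.1 hrc
      · rw [Tba.2.2.2.2.2.2.1, Tba.2.1]
      · rw [Tba.2.2.2.2.2.2.2.1, Tba.2.1]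
      · rw [Tby.2.2.2.2.2.2.1, Tby.2.1]
      · rw [Tby.2.2.2.2.2.2.2.1, Tby.2.1]
      · rw [← Tay.2.1, ch_sq]
        congr 2
        congr 1
        ring
    have r2 := k_q (u1 := un rb ra (b1 + b2 + b3)) (d1 := hd rb ra (b1 + b2 + b3))
      (u2 := un rb ry b3) (d2 := hd rb ry b3) xe (by unfold UU at hc; linarith) r1
      Tba.2.2.1.le Tby.2.2.1.le Tba.2.2.2.1 Tby.2.2.2.1 Tba.2.2.2.2.1
    rw [Tba.2.2.2.2.2.2.2.2.2.2.1, Tby.2.2.2.2.2.2.2.2.2.2.1] at r2
    have r3 : 0 < Real.sin (UU rb rx t3) - TT rb rx t3 * Real.cos (UU rb rx t3) := by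
      rw [← Tbx.2.2.2.2.2.2.2.2.2.2.1]
      exact div_pos (Real.sin_pos_of_pos_of_lt_pi Tbx.2.2.2.2.1 Tbx.2.2.2.2.2.1)
        (Real.cos_pos_of_mem_Ioo ⟨by linarith [Tbx.2.2.1], Tbx.2.2.2.1⟩)
    have r4 : 0 ≤ Real.cos (UU rb ra (b1 + b2 + b3)) :=
      Real.cos_nonneg_of_mem_Icc ⟨by linarith, by linarith⟩
    have r5 := mul_le_mul_of_nonneg_right hTj1 r4
    linarith
  refine H49E5.ev (db := h0 rb) (d := hd rb rx t3) (al := UU rb rx t3)
    (xi := UU rb ra (b1 + b2 + b3)) (eta := UU rb ry b3) (Tj := Tj) (Ty := TT rb ry b3)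
    dbp.le Tbx.2.2.1.le ?_ hal Tbx.2.2.2.1 P.hbx.le hTj0 xi0.le xe (by linarith) (by linarith)
    heta ?_ ?_
  · unfold UU; linarith [Tbx.2.2.2.2.1]
  · have : TT rb rx t3 = Real.tan (hd rb rx t3) := rfl
    rw [← this]
    linarith
  · have : TT rb rx t3 = Real.tan (hd rb rx t3) := rfl
    rw [← this]
    linarith

end E5
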