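import Pool.Agent.Helper49.E5.TRI
import Pool.Agent.Helper49.E5.FRC

/-!
MP_efd95c_co, wheels: row WQ.
-/

set_option autoImplicit false

open Real

namespace E5

theorem wq_polar (v : ℂ) : v = (‖v‖ : ℂ) * AX.e (Complex.arg v) := by
  unfold AX.e
  exact (Complex.norm_mul_exp_arg_mul_I v).symm

theorem wq_norm_e (s : ℝ) : ‖AX.e s‖ = 1 := by
  unfold AX.e
  exact Complex.norm_exp_ofReal_mul_I s

theorem wq_crs (r s α β : ℝ) :
    crs ((r : ℂ) * AX.e α) ((s : ℂ) * AX.e (α + β)) = r * s * Real.sin β := by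
  unfold crs
  rw [map_mul, Complex.conj_ofReal, frc_conj, frc_add]
  have h : (r : ℂ) * AX.e (-α) * ((s : ℂ) * (AX.e α * AX.e β)) =
      ((r * s : ℝ) : ℂ) * AX.e β := by
    have h2 : AX.e (-α) * AX.e α = 1 := by
      rw [← frc_add]
      simp [AX.e]
    push_cast
    linear_combination ((r : ℂ) * (s : ℂ) * AX.e β) * h2
  rw [h]
  simp [AX.e, Complex.exp_im]

theorem wq_next {u v : ℂ} {φ : ℝ} (hu : u = (‖u‖ : ℂ) * AX.e φ) (h : 0 < crs u v) :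
    ∃ b, 0 < b ∧ b < π ∧ v = (‖v‖ : ℂ) * AX.e (φ + b) := by
  have hu0 : u ≠ 0 := by
    rintro rfl
    simp [crs] at h
  have hun : 0 < ‖u‖ := norm_pos_iff.mpr hu0
  have hun' : (‖u‖ : ℂ) ≠ 0 := by exact_mod_cast hun.ne'
  have him : 0 < (v / u).im := by
    have : (v / u).im = crs u v / Complex.normSq u := by
      unfold crs
      rw [Complex.div_im]
      simp only [Complex.mul_im, Complex.conj_re, Complex.conj_im]
      ring
    rw [this]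
    exact div_pos h (Complex.normSq_pos.mpr hu0)
  refine ⟨Complex.arg (v / u), ?_, ?_, ?_⟩
  · have h1 : 0 ≤ Complex.arg (v / u) := Complex.arg_nonneg_iff.mpr him.le
    rcases h1.eq_or_lt with h2 | h2
    · have := (Complex.arg_eq_zero_iff.mp h2.symm).2
      rw [this] at him
      exact absurd him (lt_irrefl _)
    · exact h2
  · exact Complex.arg_lt_pi_iff.mpr (Or.inr him.ne')
  · have h1 : v = u * (v / u) := by field_simp
    have h2 := wq_polar (v / u)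
    have h3 : (‖v / u‖ : ℂ) = (‖v‖ : ℂ) / (‖u‖ : ℂ) := by
      rw [norm_div]; push_cast; rfl
    calc v = u * (v / u) := h1
      _ = ((‖u‖ : ℂ) * AX.e φ) * ((‖v / u‖ : ℂ) * AX.e (Complex.arg (v / u))) := by
          rw [← hu, ← h2]
      _ = (‖v‖ : ℂ) * AX.e (φ + Complex.arg (v / u)) := by
          rw [h3, frc_add]
          field_simp

theorem wq_e_eq {s t : ℝ} (h : AX.e s = AX.e t) : ∃ m : ℤ, s = t + 2 * π * m := by
  unfold AX.e at h
  rw [Complex.exp_eq_exp_iff_exists_int] at h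
  obtain ⟨m, hm⟩ := h
  refine ⟨m, ?_⟩
  have h1 := congrArg Complex.im hm
  simp at h1
  linarith

/-- a flat difference with two descriptions -/
theorem wq_mod {s t s' t' : ℝ} (h1 : AX.e s = AX.e s') (h2 : AX.e t = AX.e t') (h3 : 0 ≤ s - t)
    (h4 : s' - t' - 2 * π < 0) :
    ∃ m : ℤ, 0 ≤ m ∧ s - t = s' - t' + 2 * π * m := by
  obtain ⟨m, hm⟩ := wq_e_eq h1
  obtain ⟨n, hn⟩ := wq_e_eq h2
  refine ⟨m - n, ?_, ?_⟩
  · by_contra hc
    push Not at hc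
    have h5 : ((m - n : ℤ) : ℝ) ≤ -1 := by
      have : m - n ≤ -1 := by omega
      exact_mod_cast this
    push_cast at h5
    have : 2 * π * ((m : ℝ) - n) ≤ 2 * π * (-1) :=
      mul_le_mul_of_nonneg_left h5 (by positivity)
    nlinarith
  · push_cast
    linarith

theorem WQ (hORI : ST_ORI) (hWARC : ST_WARC) (hWARC0 : ST_WARC0) (hGAP : ST_GAP) (hLG : ST_LG)
    (hD2 : ST_D2) : ST_WQ := by
  intro q aq bq H h0q
  obtain ⟨-, -, -, -, hpos, -, -⟩ := hLG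
  -- the arcs between consecutive touching points
  have hstep : ∀ k : ℤ, bq k < aq (k + 1) ∧ aq (k + 1) < bq k + π := by
    intro k
    have h1 := (hGAP 5 q 5 gQ aq bq H k (k + 1) (by omega) (fun j _ _ => by omega)).1
    have h2 := H.step k
    have hne : q (gQ k) ≠ q (gQ (k + 1)) := by
      intro he
      have := H.ginj k (k + 1) (H.inj he)
      simp at this
    have h3 := hpos _ _ hne
    constructor
    · linarith
    · linarith
  have hco : ∀ k : ℤ, ∃ x : ℂ, x - AX.e (bq k) = q (gQ k) ∧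
      x - AX.e (aq (k + 1)) = q (gQ (k + 1)) := by
    intro k
    refine ⟨q (gQ k) + AX.e (bq k), by ring, ?_⟩
    rw [H.corner k]
    ring
  have g0 : gQ 0 = 0 := by decide
  have g1 : gQ 1 = 1 := by decide
  have g2 : gQ 2 = 2 := by decide
  have g3 : gQ 3 = 3 := by decide
  have g4 : gQ 4 = 4 := by decide
  have g5 : gQ 5 = 0 := by decide
  -- orientation
  have hor := fun i j k => hORI 5 q 5 gQ aq bq H i j k
  have c12 : 0 < crs (q 1) (q 2) := by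
    have := hor 0 1 2 (by norm_num) (by norm_num) (by norm_num)
    rwa [g0, g1, g2, h0q, sub_zero, sub_zero] at this
  have c23 : 0 < crs (q 2) (q 3) := by
    have := hor 0 2 3 (by norm_num) (by norm_num) (by norm_num)
    rwa [g0, g2, g3, h0q, sub_zero, sub_zero] at this
  have c34 : 0 < crs (q 3) (q 4) := by
    have := hor 0 3 4 (by norm_num) (by norm_num) (by norm_num)
    rwa [g0, g3, g4, h0q, sub_zero, sub_zero] at this
  have c13 : 0 < crs (q 1) (q 3) := by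
    have := hor 0 1 3 (by norm_num) (by norm_num) (by norm_num)
    rwa [g0, g1, g3, h0q, sub_zero, sub_zero] at this
  have c14 : 0 < crs (q 1) (q 4) := by
    have := hor 0 1 4 (by norm_num) (by norm_num) (by norm_num)
    rwa [g0, g1, g4, h0q, sub_zero, sub_zero] at this
  have hr : ∀ i : Fin 5, i ≠ 0 → 0 < ‖q i‖ := by
    intro i hi
    rw [norm_pos_iff]
    intro h
    exact hi (H.inj (h.trans h0q.symm))
  have r1 := hr 1 (by decide)
  have r2 := hr 2 (by decide)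
  have r3 := hr 3 (by decide)
  have r4 := hr 4 (by decide)
  -- the angles
  set φ := Complex.arg (q 1) with hφ
  have e1 : q 1 = (‖q 1‖ : ℂ) * AX.e φ := wq_polar (q 1)
  obtain ⟨b1, b1p, b1l, e2⟩ := wq_next e1 c12
  obtain ⟨b2, b2p, b2l, e3⟩ := wq_next e2 c23
  obtain ⟨b3, b3p, b3l, e4⟩ := wq_next e3 c34
  have s12 : b1 + b2 < π := by
    by_contra hc
    push Not at hc
    have h1 : crs (q 1) (q 3) = ‖q 1‖ * ‖q 3‖ * Real.sin (b1 + b2) := by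
      have : q 3 = (‖q 3‖ : ℂ) * AX.e (φ + (b1 + b2)) := by
        rw [← add_assoc]; exact e3
      conv_lhs => rw [e1, this]
      exact wq_crs _ _ _ _
    rw [h1] at c13
    have h2 : Real.sin (b1 + b2) ≤ 0 := by
      have h3 : Real.sin (b1 + b2) = -Real.sin (b1 + b2 - π) := by
        rw [Real.sin_sub_pi]; ring
      rw [h3]
      have := Real.sin_nonneg_of_nonneg_of_le_pi (x := b1 + b2 - π) (by linarith) (by linarith)
      linarith
    nlinarith [mul_pos r1 r3]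
  have s123 : b1 + b2 + b3 < π := by
    by_contra hc
    push Not at hc
    have h1 : crs (q 1) (q 4) = ‖q 1‖ * ‖q 4‖ * Real.sin (b1 + b2 + b3) := by
      have : q 4 = (‖q 4‖ : ℂ) * AX.e (φ + (b1 + b2 + b3)) := by
        rw [show φ + (b1 + b2 + b3) = φ + b1 + b2 + b3 by ring]; exact e4
      conv_lhs => rw [e1, this]
      exact wq_crs _ _ _ _
    rw [h1] at c14
    have h2 : Real.sin (b1 + b2 + b3) ≤ 0 := by
      have h3 : Real.sin (b1 + b2 + b3) = -Real.sin (b1 + b2 + b3 - π) := by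
        rw [Real.sin_sub_pi]; ring
      rw [h3]
      have := Real.sin_nonneg_of_nonneg_of_le_pi (x := b1 + b2 + b3 - π) (by linarith)
        (by linarith)
      linarith
    nlinarith [mul_pos r1 r4]
  -- the five arcs
  obtain ⟨x0, x0a, x0b⟩ := hco 0
  obtain ⟨x1, x1a, x1b⟩ := hco 1
  obtain ⟨x2, x2a, x2b⟩ := hco 2
  obtain ⟨x3, x3a, x3b⟩ := hco 3
  obtain ⟨x4, x4a, x4b⟩ := hco 4
  have st0 := hstep 0
  have st1 := hstep 1
  have st2 := hstep 2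
  have st3 := hstep 3
  have st4 := hstep 4
  norm_num at x0b x1b x2b x3b x4b st0 st1 st2 st3 st4
  rw [g0] at x0a
  rw [g1] at x0b x1a
  rw [g2] at x1b x2a
  rw [g3] at x2b x3a
  rw [g4] at x3b x4a
  rw [g5] at x4b
  have W0 := (hWARC0 x0 (bq 0) (aq 1) ‖q 1‖ φ st0.1 st0.2 r1).1 (by rw [x0a, h0q])
    (by rw [x0b]; exact e1)
  have W1 := hWARC x1 (bq 1) (aq 2) ‖q 1‖ ‖q 2‖ φ b1 st1.1 st1.2 r1 r2 b1p b1l
    (by rw [x1a]; exact e1) (by rw [x1b]; exact e2)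
  have W2 := hWARC x2 (bq 2) (aq 3) ‖q 2‖ ‖q 3‖ (φ + b1) b2 st2.1 st2.2 r2 r3 b2p b2l
    (by rw [x2a]; exact e2) (by rw [x2b]; exact e3)
  have W3 := hWARC x3 (bq 3) (aq 4) ‖q 3‖ ‖q 4‖ (φ + b1 + b2) b3 st3.1 st3.2 r3 r4 b3p b3l
    (by rw [x3a]; exact e3) (by rw [x3b]; exact e4)
  have W4 := (hWARC0 x4 (bq 4) (aq 5) ‖q 4‖ (φ + b1 + b2 + b3) st4.1 st4.2 r4).2
    (by rw [x4a]; exact e4) (by rw [x4b, h0q])
  obtain ⟨W0a, W0b, W0c, W0d⟩ := W0
  obtain ⟨W1a, W1b, W1c, W1d⟩ := W1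
  obtain ⟨W2a, W2b, W2c, W2d⟩ := W2
  obtain ⟨W3a, W3b, W3c, W3d⟩ := W3
  obtain ⟨W4a, W4b, W4c, W4d⟩ := W4
  have ha5 : aq 5 = aq 0 + 2 * π := by
    have := H.aper 0
    simpa using this
  have ea0 : AX.e (aq 0) = AX.e (φ + b1 + b2 + b3 - π / 2 + h0 ‖q 4‖) := by
    rw [← W4b, ha5, frc_add]
    have : AX.e (2 * π) = 1 := by
      unfold AX.e
      have : ((2 * π : ℝ) : ℂ) * Complex.I = 2 * (π : ℂ) * Complex.I := by push_cast; ring
      rw [this, Complex.exp_two_pi_mul_I]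
    rw [this, mul_one]
  -- triangle facts
  have hh0 : ∀ r : ℝ, 0 < r → 0 < h0 r := by
    intro r h
    unfold h0
    exact Real.arcsin_pos.mpr (by linarith)
  have T1 := TRI ‖q 1‖ ‖q 2‖ b1 r1 r2 b1p b1l W1d
  have T2 := TRI ‖q 2‖ ‖q 3‖ b2 r2 r3 b2p b2l W2d
  have T3 := TRI ‖q 3‖ ‖q 4‖ b3 r3 r4 b3p b3l W3d
  have T1' := TRI ‖q 2‖ ‖q 1‖ b1 r2 r1 b1p b1l (by
    have : ch ‖q 2‖ ‖q 1‖ b1 = ch ‖q 1‖ ‖q 2‖ b1 := by unfold ch; ring_nf
    rw [this]; exact W1d)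
  have T2' := TRI ‖q 3‖ ‖q 2‖ b2 r3 r2 b2p b2l (by
    have : ch ‖q 3‖ ‖q 2‖ b2 = ch ‖q 2‖ ‖q 3‖ b2 := by unfold ch; ring_nf
    rw [this]; exact W2d)
  have T3' := TRI ‖q 4‖ ‖q 3‖ b3 r4 r3 b3p b3l (by
    have : ch ‖q 4‖ ‖q 3‖ b3 = ch ‖q 3‖ ‖q 4‖ b3 := by unfold ch; ring_nf
    rw [this]; exact W3d)
  have hds : ∀ r s θ : ℝ, hd r s θ = hd s r θ := by
    intro r s θ
    unfold hd ch
    ring_nf
  have U1 : UU ‖q 1‖ ‖q 2‖ b1 + UU ‖q 2‖ ‖q 1‖ b1 = π - b1 + 2 * hd ‖q 1‖ ‖q 2‖ b1 := by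
    have := T1.2.2.2.2.2.2.2.2.1
    unfold UU
    rw [hds ‖q 2‖ ‖q 1‖ b1]
    linarith
  have U2 : UU ‖q 2‖ ‖q 3‖ b2 + UU ‖q 3‖ ‖q 2‖ b2 = π - b2 + 2 * hd ‖q 2‖ ‖q 3‖ b2 := by
    have := T2.2.2.2.2.2.2.2.2.1
    unfold UU
    rw [hds ‖q 3‖ ‖q 2‖ b2]
    linarith
  have U3 : UU ‖q 3‖ ‖q 4‖ b3 + UU ‖q 4‖ ‖q 3‖ b3 = π - b3 + 2 * hd ‖q 3‖ ‖q 4‖ b3 := by
    have := T3.2.2.2.2.2.2.2.2.1
    unfold UU
    rw [hds ‖q 4‖ ‖q 3‖ b3]
    linarith
  have P1 : 0 < UU ‖q 1‖ ‖q 2‖ b1 := by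
    unfold UU; linarith [T1.2.2.1, T1.2.2.2.2.1]
  have P1' : 0 < UU ‖q 2‖ ‖q 1‖ b1 := by
    unfold UU; linarith [T1'.2.2.1, T1'.2.2.2.2.1]
  have P2 : 0 < UU ‖q 2‖ ‖q 3‖ b2 := by
    unfold UU; linarith [T2.2.2.1, T2.2.2.2.2.1]
  have P2' : 0 < UU ‖q 3‖ ‖q 2‖ b2 := by
    unfold UU; linarith [T2'.2.2.1, T2'.2.2.2.2.1]
  have P3 : 0 < UU ‖q 3‖ ‖q 4‖ b3 := by
    unfold UU; linarith [T3.2.2.1, T3.2.2.2.2.1]
  have P3' : 0 < UU ‖q 4‖ ‖q 3‖ b3 := by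
    unfold UU; linarith [T3'.2.2.1, T3'.2.2.2.2.1]
  have p01 := hh0 _ r1
  have p04 := hh0 _ r4
  have hpi := Real.pi_pos
  -- the five differences
  obtain ⟨m0, m0p, M0⟩ := wq_mod W0a ea0 (by linarith [H.le 0]) (by linarith)
  obtain ⟨m1, m1p, M1⟩ := wq_mod W1a W0b (by linarith [H.le 1]) (by linarith)
  obtain ⟨m2, m2p, M2⟩ := wq_mod W2a W1b (by linarith [H.le 2]) (by linarith)
  obtain ⟨m3, m3p, M3⟩ := wq_mod W3a W2b (by linarith [H.le 3]) (by linarith)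
  obtain ⟨m4, m4p, M4⟩ := wq_mod W4a W3b (by linarith [H.le 4]) (by linarith)
  have hsum : 2 * π * ((m0 : ℝ) + m1 + m2 + m3 + m4) = 0 := by
    linarith [M0, M1, M2, M3, M4, U1, U2, U3, W0c, W1c, W2c, W3c, W4c, ha5]
  have hsum' : (m0 + m1 + m2 + m3 + m4 : ℤ) = 0 := by
    have h1 : (m0 : ℝ) + m1 + m2 + m3 + m4 = 0 := by
      rcases mul_eq_zero.mp hsum with h | h
      · exfalso; linarith
      · exact h
    exact_mod_cast h1
  have z0 : m0 = 0 := by omega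
  have z1 : m1 = 0 := by omega
  have z2 : m2 = 0 := by omega
  have z3 : m3 = 0 := by omega
  have z4 : m4 = 0 := by omega
  rw [z0] at M0
  rw [z1] at M1
  rw [z2] at M2
  rw [z3] at M3
  rw [z4] at M4
  push_cast at M0 M1 M2 M3 M4
  have hr2 : ∀ i : Fin 5, i ≠ 0 → 0 < ‖q i‖ ∧ ‖q i‖ < 2 := by
    intro i hi
    refine ⟨hr i hi, ?_⟩
    have := hD2 5 q H.int i 0
    rwa [h0q, dist_zero_right] at this
  refine ⟨φ, b1, b2, b3, b1p, b2p, b3p, s123, hr2, W1d, W2d, W3d, e1, e2, e3, e4,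
    by linarith, by linarith,
    by linarith, by linarith, by linarith, W1a, W0b, W2a, W1b, W3a, W2b, W4a, W3b, W0a, ea0⟩

end E5
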