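import Mathlib

/-!
MP_efd95c_co: a kink at a fan end whose hub lies beyond the chord, pure lemmas.
-/

set_option autoImplicit false

open Real

namespace H49E5

/-- the cross product of two plane vectors -/
def cr (z w : ℂ) : ℝ := z.re * w.im - z.im * w.re

/-- the inner product of two plane vectors -/
def ip (z w : ℂ) : ℝ := z.re * w.re + z.im * w.im

lemma norm_sq_eq (z : ℂ) : ‖z‖ ^ 2 = z.re ^ 2 + z.im ^ 2 := by
  rw [← Complex.normSq_eq_norm_sq, Complex.normSq_apply]; ring

lemma abs_ip_le (z w : ℂ) : |ip z w| ≤ ‖z‖ * ‖w‖ := by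
  have h : ip z w ^ 2 ≤ (‖z‖ * ‖w‖) ^ 2 := by
    rw [mul_pow, norm_sq_eq, norm_sq_eq]
    unfold ip
    nlinarith [sq_nonneg (z.re * w.im - z.im * w.re)]
  exact abs_le_of_sq_le_sq h (by positivity)

/-- `b`, `y` on the unit circle round `v`, `v` on the left of `b → y`, the origin on the right of
this line or on it: the power of the origin is at most the product of the two distances. -/
theorem ka_prod {b y v : ℂ} (hb : ‖b - v‖ = 1) (hy : ‖y - v‖ = 1)
    (hv : 0 < cr (y - b) (v - b)) (h0 : cr b y ≤ 0) :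
    1 - ‖v‖ ^ 2 ≤ - ip b y ∧ 1 - ‖v‖ ^ 2 ≤ ‖b‖ * ‖y‖ := by
  have hb2 : ‖b - v‖ ^ 2 = 1 := by rw [hb]; norm_num
  have hy2 : ‖y - v‖ ^ 2 = 1 := by rw [hy]; norm_num
  rw [norm_sq_eq] at hb2 hy2
  simp only [Complex.sub_re, Complex.sub_im] at hb2 hy2
  have hD : 0 < (y.re - b.re) ^ 2 + (y.im - b.im) ^ 2 := by
    rcases eq_or_ne y b with h | h
    · exfalso
      rw [h] at hv
      simp [cr] at hv
    · have : y.re - b.re ≠ 0 ∨ y.im - b.im ≠ 0 := by
        by_contra hcon
        push Not at hcon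
        exact h (Complex.ext (by linarith [hcon.1]) (by linarith [hcon.2]))
      rcases this with h | h
      · nlinarith [sq_nonneg (y.im - b.im), sq_pos_of_ne_zero h]
      · nlinarith [sq_nonneg (y.re - b.re), sq_pos_of_ne_zero h]
  unfold cr at hv h0
  simp only [Complex.sub_re, Complex.sub_im] at hv
  have h1 : 1 - (v.re ^ 2 + v.im ^ 2) + (b.re * y.re + b.im * y.im)
      = b.re * (b.re + y.re - 2 * v.re) + b.im * (b.im + y.im - 2 * v.im) := by
    linear_combination - hb2
  have h2 : (y.re - b.re) * (b.re + y.re - 2 * v.re) + (y.im - b.im) * (b.im + y.im - 2 * v.im)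
      = 0 := by
    linear_combination hy2 - hb2
  have h3 : ((y.re - b.re) ^ 2 + (y.im - b.im) ^ 2)
      * (b.re * (b.re + y.re - 2 * v.re) + b.im * (b.im + y.im - 2 * v.im))
      = 2 * ((y.re - b.re) * (v.im - b.im) - (y.im - b.im) * (v.re - b.re))
        * (b.re * y.im - b.im * y.re) := by
    linear_combination (b.re * (y.re - b.re) + b.im * (y.im - b.im)
      - (y.re - b.re) ^ 2 * 0) * h2
  have h4 : b.re * (b.re + y.re - 2 * v.re) + b.im * (b.im + y.im - 2 * v.im) ≤ 0 := by
    by_contra hcon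
    push Not at hcon
    have := mul_pos hD hcon
    nlinarith
  have hfirst : 1 - ‖v‖ ^ 2 ≤ - ip b y := by
    rw [norm_sq_eq]
    unfold ip
    linarith
  refine ⟨hfirst, hfirst.trans ?_⟩
  have := abs_ip_le b y
  have h5 := neg_abs_le (ip b y)
  linarith

/-- torque of the chord `a b` of the unit circle round `v`; the point of the circle which is
nearest to the origin lies on the arc from `b` to `a`. -/
theorem ka_tab {a b v : ℂ} (ha : ‖a - v‖ = 1) (hb : ‖b - v‖ = 1)
    (hS : 0 < cr (b - v) (a - v)) (h1 : 0 ≤ cr v b) (h2 : 0 ≤ cr a v) :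
    cr b a / cr (b - v) (a - v) ≤ 1 - ‖v‖ := by
  have key : ((cr (b - v) (a - v) : ℝ) : ℂ) * v
      = -((cr v b : ℝ) : ℂ) * (a - v) - ((cr a v : ℝ) : ℂ) * (b - v) := by
    apply Complex.ext
    · simp [cr]; ring
    · simp [cr]; ring
  have hn : cr (b - v) (a - v) * ‖v‖ ≤ cr v b + cr a v := by
    have h3 := congrArg norm key
    rw [norm_mul, Complex.norm_real, Real.norm_of_nonneg hS.le] at h3
    rw [h3]
    calc ‖-((cr v b : ℝ) : ℂ) * (a - v) - ((cr a v : ℝ) : ℂ) * (b - v)‖
        ≤ ‖-((cr v b : ℝ) : ℂ) * (a - v)‖ + ‖((cr a v : ℝ) : ℂ) * (b - v)‖ := norm_sub_le _ _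
      _ = cr v b + cr a v := by
          rw [norm_mul, norm_mul, norm_neg, ha, hb, Complex.norm_real, Complex.norm_real,
            Real.norm_of_nonneg h1, Real.norm_of_nonneg h2]
          ring
  have hz : cr b a = cr (b - v) (a - v) - (cr v b + cr a v) := by
    simp [cr]; ring
  rw [div_le_iff₀ hS, hz]
  nlinarith

/-- `sin` of the arc of a chord of a unit circle -/
theorem cr_eq {a b v : ℂ} (ha : ‖a - v‖ = 1) (hb : ‖b - v‖ = 1)
    (hS : 0 < cr (b - v) (a - v)) :
    cr (b - v) (a - v) = dist a b * Real.sqrt (4 - dist a b ^ 2) / 2 := by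
  have ha2 : ‖a - v‖ ^ 2 = 1 := by rw [ha]; norm_num
  have hb2 : ‖b - v‖ ^ 2 = 1 := by rw [hb]; norm_num
  rw [norm_sq_eq] at ha2 hb2
  have hd : dist a b ^ 2 = 2 - 2 * ip (b - v) (a - v) := by
    rw [dist_eq_norm, norm_sq_eq]
    unfold ip
    simp only [Complex.sub_re, Complex.sub_im] at *
    nlinarith
  have hsq : cr (b - v) (a - v) ^ 2 + ip (b - v) (a - v) ^ 2 = 1 := by
    unfold cr ip
    have : ((b - v).re * (a - v).im - (b - v).im * (a - v).re) ^ 2
        + ((b - v).re * (a - v).re + (b - v).im * (a - v).im) ^ 2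
        = ((b - v).re ^ 2 + (b - v).im ^ 2) * ((a - v).re ^ 2 + (a - v).im ^ 2) := by ring
    rw [this, ha2, hb2]; norm_num
  have hdn : 0 ≤ dist a b := dist_nonneg
  have h4 : 0 ≤ 4 - dist a b ^ 2 := by
    have : ip (b - v) (a - v) ^ 2 ≤ 1 := by nlinarith [sq_nonneg (cr (b - v) (a - v))]
    have h5 := abs_le_one_iff_mul_self_le_one.mpr (by nlinarith : ip (b - v) (a - v)
      * ip (b - v) (a - v) ≤ 1)
    have h6 := (abs_le.mp h5).1
    linarith
  have hsqr : (dist a b * Real.sqrt (4 - dist a b ^ 2) / 2) ^ 2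
      = cr (b - v) (a - v) ^ 2 := by
    rw [div_pow, mul_pow, Real.sq_sqrt h4]
    have : ip (b - v) (a - v) = (2 - dist a b ^ 2) / 2 := by linarith
    rw [this] at hsq
    nlinarith
  have hn : 0 ≤ dist a b * Real.sqrt (4 - dist a b ^ 2) / 2 := by positivity
  exact ((pow_left_inj₀ hn hS.le (by norm_num)).mp hsqr).symm

/-- a vertex of a full fan with an obtuse arc angle -/
theorem ka_tax {eta da T : ℝ} (hda : 0 ≤ da) (h1 : π / 2 ≤ eta) (h2 : eta < π - da)
    (hT : 0 ≤ T) : sin da < sin eta - T * cos eta := by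
  have hpi := Real.pi_pos
  have h3 : sin da < sin (π - eta) :=
    Real.sin_lt_sin_of_lt_of_le_pi_div_two (by linarith) (by linarith) (by linarith)
  rw [Real.sin_pi_sub] at h3
  have h4 : cos eta ≤ 0 := Real.cos_nonpos_of_pi_div_two_le_of_le h1 (by linarith)
  nlinarith

/-- three points of a full configuration have circumradius less than `1`: `th`, `u`, `w` are the
angles of the triangle, `d`, `dj`, `di` the half arcs of the opposite sides. -/
theorem circum {th u w di dj d : ℝ} (hth : 0 < th) (hu : 0 < u) (hw : 0 < w)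
    (hd : 0 < d) (hd2 : d < π / 2) (hdi : 0 < di) (hdi2 : di < π / 2) (hdj : 0 < dj)
    (hdj2 : dj < π / 2) (hsum : th + u + w = π) (hs1 : sin d * sin u = sin dj * sin th)
    (hs2 : sin d * sin w = sin di * sin th) (h1 : u + di + d < π) (h2 : w + dj + d < π)
    (h3 : th + di + dj < π) : sin d < sin th := by
  have hpi := Real.pi_pos
  by_contra hcon
  push Not at hcon
  have hsd : 0 < sin d := Real.sin_pos_of_pos_of_lt_pi hd (by linarith)
  have hsdi : 0 < sin di := Real.sin_pos_of_pos_of_lt_pi hdi (by linarith)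
  have hsdj : 0 < sin dj := Real.sin_pos_of_pos_of_lt_pi hdj (by linarith)
  -- sines of the other two angles
  have hsu : sin u ≤ sin dj := by
    by_contra h
    push Not at h
    nlinarith
  have hsw : sin w ≤ sin di := by
    by_contra h
    push Not at h
    nlinarith
  -- an angle is at most the opposite half arc, or at least its supplement
  have alt : ∀ t s : ℝ, 0 < t → t < π → 0 < s → s < π / 2 → sin t ≤ sin s →
      t ≤ s ∨ π - s ≤ t := by
    intro t s ht0 htp hs0 hs2 hts
    by_contra h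
    push Not at h
    obtain ⟨h4, h5⟩ := h
    rcases le_or_gt t (π / 2) with h6 | h6
    · have := Real.sin_lt_sin_of_lt_of_le_pi_div_two (by linarith) h6 h4
      linarith
    · have h7 : sin s < sin (π - t) :=
        Real.sin_lt_sin_of_lt_of_le_pi_div_two (by linarith) (by linarith) (by linarith)
      rw [Real.sin_pi_sub] at h7
      linarith
  rcases alt u dj hu (by linarith) hdj hdj2 hsu with hA | hA
  · rcases alt w di hw (by linarith) hdi hdi2 hsw with hB | hB
    · linarith
    · -- w large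
      rcases alt th d hth (by linarith) hd hd2 hcon with hC | hC
      · linarith
      · linarith
  · rcases alt th d hth (by linarith) hd hd2 hcon with hC | hC
    · rcases alt w di hw (by linarith) hdi hdi2 hsw with hB | hB
      · linarith
      · linarith
    · linarith

/-- the final contradiction -/
theorem ka_final {e ra rb ry tax tyb tab : ℝ} (he : e ≤ 1) (ha : 1 - e ≤ ra)
    (hby : 1 - e ^ 2 ≤ rb * ry) (h1 : ra ^ 2 / 2 < tax) (h2 : rb * ry / 2 ≤ tyb)
    (h3 : tab ≤ 1 - e) (h4 : tax + tyb ≤ tab) : False := by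
  have : (1 - e) ^ 2 ≤ ra ^ 2 := by
    apply pow_le_pow_left₀ (by linarith) ha
  nlinarith

end H49E5
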